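import Pool.Agent.Helper242.KnotA.A4

namespace KnotA

theorem cnt_mono_A5 {X Y : Finset R3} (h : X ⊆ Y) (S : Set R3) : cnt X S ≤ cnt Y S := by
  classical
  unfold cnt
  exact Finset.card_le_card (fun x hx => by
    simp only [Finset.mem_filter] at hx ⊢
    exact ⟨h hx.1, hx.2⟩)

theorem StrictSign.mono_A5 {h : R3 →ₗ[ℝ] ℝ} {e : ℝ} {S T : Set R3} (hs : StrictSign h e T)
    (hST : S ⊆ T) : StrictSign h e S := by
  rcases hs with hs | hs
  · exact Or.inl fun x hx => hs x (hST hx)
  · exact Or.inr fun x hx => hs x (hST hx)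

theorem A5 : ∃ (c : ℝ) (n0 : ℕ), 0 < c ∧ c ≤ 1 ∧ 1 ≤ n0 ∧ ∀ t : ℕ, ∀ (v : Fin 4 → R3) (X : Finset R3),
    (∀ x ∈ X, x ∈ hull v) → PlaneFour X → (n0 : ℝ) ≤ c ^ t * X.card →
    ∃ D : Fin (4 ^ t) → (Fin 4 → R3), IsFam (3 ^ t) v D ∧
      ∀ j, c ^ t * X.card ≤ (cnt X (hull (D j)) : ℝ) := by
  classical
  obtain ⟨c, n0, hc0, hc1, hA⟩ := A4
  refine ⟨c, max n0 1, hc0, hc1, le_max_right _ _, ?_⟩
  intro t
  induction t with
  | zero =>
    intro v X hX hP _
    refine ⟨fun _ => v, ⟨fun _ => subset_rfl, ?_, ?_⟩, ?_⟩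
    · intro i j hij
      exact absurd (Fin.ext (by have := i.2; have := j.2; simp at *)) hij
    · intro h e hh
      refine (Set.ncard_le_ncard (Set.subset_univ _)).trans ?_
      rw [Set.ncard_univ]
      simp
    · intro j
      have : cnt X (hull v) = X.card := by
        unfold cnt
        rw [Finset.filter_true_of_mem hX]
      rw [this]; simp
  | succ t ih =>
    intro v X hX hP hn
    have hct : (0 : ℝ) < c ^ t := pow_pos hc0 t
    have hle : c ^ (t + 1) * (X.card : ℝ) ≤ c ^ t * X.card := by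
      rw [pow_succ]
      have : c ^ t * c ≤ c ^ t := by nlinarith
      exact mul_le_mul_of_nonneg_right this (Nat.cast_nonneg _)
    obtain ⟨D, hD, hcnt⟩ := ih v X hX hP (hn.trans hle)
    set Y : Fin (4 ^ t) → Finset R3 := fun j => X.filter (fun x => x ∈ hull (D j)) with hY
    have hYc : ∀ j, ((Y j).card : ℝ) = (cnt X (hull (D j)) : ℝ) := by
      intro j
      rfl
    have hstep : ∀ j, ∃ E : Fin 4 → (Fin 4 → R3), IsFam 3 (D j) E ∧
        ∀ i, c * (Y j).card ≤ (cnt (Y j) (hull (E i)) : ℝ) := by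
      intro j
      refine hA (D j) (Y j) ?_ ?_ ?_
      · intro x hx
        simp only [hY, Finset.mem_filter] at hx
        exact hx.2
      · intro g e hg
        exact (cnt_mono_A5 (Finset.filter_subset _ _) _).trans (hP g e hg)
      · have h1 : ((max n0 1 : ℕ) : ℝ) ≤ ((Y j).card : ℝ) := by
          rw [hYc]
          exact (hn.trans hle).trans (hcnt j)
        have h2 : max n0 1 ≤ (Y j).card := by exact_mod_cast h1
        exact (le_max_left _ _).trans h2
    choose E hE hEc using hstep
    let φ : Fin (4 ^ t) × Fin 4 ≃ Fin (4 ^ (t + 1)) :=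
      finProdFinEquiv.trans (finCongr (pow_succ 4 t).symm)
    refine ⟨fun k => E (φ.symm k).1 (φ.symm k).2, ⟨?_, ?_, ?_⟩, ?_⟩
    · intro k
      exact ((hE _).sub _).trans (hD.sub _)
    · intro k l hkl
      have hne : φ.symm k ≠ φ.symm l := fun h => hkl (φ.symm.injective h)
      by_cases h1 : (φ.symm k).1 = (φ.symm l).1
      · have h2 : (φ.symm k).2 ≠ (φ.symm l).2 := fun h => hne (Prod.ext h1 h)
        show Disjoint (hull (E (φ.symm k).1 (φ.symm k).2)) (hull (E (φ.symm l).1 (φ.symm l).2))
        rw [h1]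
        exact (hE _).disj _ _ h2
      · exact (hD.disj _ _ h1).mono ((hE _).sub _) ((hE _).sub _)
    · intro h e hh
      have h1 := hD.sign h e hh
      have h2 := fun j => (hE j).sign h e hh
      set B : Finset (Fin (4 ^ t)) := Finset.univ.filter (fun j => ¬ StrictSign h e (hull (D j)))
        with hB
      have hBc : B.card ≤ 3 ^ t := by
        refine le_trans (le_of_eq ?_) h1
        rw [← Set.ncard_coe_finset]
        congr 1
        ext j
        simp [hB]
      set C : Fin (4 ^ t) → Finset (Fin 4) := fun j =>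
        Finset.univ.filter (fun i => ¬ StrictSign h e (hull (E j i))) with hC
      have hCc : ∀ j, (C j).card ≤ 3 := by
        intro j
        refine le_trans (le_of_eq ?_) (h2 j)
        rw [← Set.ncard_coe_finset]
        congr 1
        ext i
        simp [hC]
      set F : Finset (Fin (4 ^ (t + 1))) :=
        B.biUnion (fun j => (C j).image (fun i => φ (j, i))) with hF
      have hsub : {k : Fin (4 ^ (t + 1)) | ¬ StrictSign h e (hull (E (φ.symm k).1 (φ.symm k).2))} ⊆
          (F : Set (Fin (4 ^ (t + 1)))) := by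
        intro k hk
        simp only [hF, Finset.coe_biUnion, Set.mem_iUnion, Finset.coe_image, Set.mem_image]
        refine ⟨(φ.symm k).1, ?_, (φ.symm k).2, ?_, ?_⟩
        · simp only [hB, Finset.mem_coe, Finset.mem_filter, Finset.mem_univ, true_and]
          exact fun hs => hk (hs.mono_A5 ((hE _).sub _))
        · simp only [hC, Finset.mem_coe, Finset.mem_filter, Finset.mem_univ, true_and]
          exact hk
        · simp
      refine (Set.ncard_le_ncard hsub (Finset.finite_toSet F)).trans ?_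
      rw [Set.ncard_coe_finset]
      calc F.card ≤ ∑ j ∈ B, ((C j).image (fun i => φ (j, i))).card := Finset.card_biUnion_le
        _ ≤ ∑ _j ∈ B, 3 := Finset.sum_le_sum fun j _ => Finset.card_image_le.trans (hCc j)
        _ = B.card * 3 := by rw [Finset.sum_const, smul_eq_mul]
        _ ≤ 3 ^ t * 3 := Nat.mul_le_mul_right 3 hBc
        _ = 3 ^ (t + 1) := (pow_succ 3 t).symm
    · intro k
      have h1 := hEc (φ.symm k).1 (φ.symm k).2
      have h2 := hcnt (φ.symm k).1
      rw [← hYc] at h2
      calc c ^ (t + 1) * (X.card : ℝ) = c * (c ^ t * X.card) := by ring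
        _ ≤ c * ((Y (φ.symm k).1).card : ℝ) := mul_le_mul_of_nonneg_left h2 hc0.le
        _ ≤ _ := h1
        _ ≤ _ := by
          exact_mod_cast cnt_mono_A5 (Finset.filter_subset _ _) _

end KnotA
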