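import Pool.Agent.Helper242.KnotA.Defs

namespace KnotA

theorem bigSimplex (X : Finset R3) : ∃ v : Fin 4 → R3, ∀ x ∈ X, x ∈ hull v := by
  obtain ⟨R, hR0, hR⟩ : ∃ R : ℝ, 0 < R ∧ ∀ x ∈ X, ∀ i, |x i| ≤ R := by
    refine ⟨1 + ∑ x ∈ X, ‖x‖, by positivity, ?_⟩
    intro x hx i
    have h1 : ‖x i‖ ≤ ‖x‖ := norm_le_pi_norm x i
    have h2 : ‖x‖ ≤ ∑ x ∈ X, ‖x‖ := Finset.single_le_sum (fun y _ => norm_nonneg y) hx
    rw [Real.norm_eq_abs] at h1
    linarith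
  refine ⟨![![-R, -R, -R], ![5 * R, -R, -R], ![-R, 5 * R, -R], ![-R, -R, 5 * R]], ?_⟩
  intro x hx
  have h0 := abs_le.1 (hR x hx 0)
  have h1 := abs_le.1 (hR x hx 1)
  have h2 := abs_le.1 (hR x hx 2)
  obtain ⟨w, hw⟩ : ∃ w : Fin 4 → ℝ, w = ![1 - ((x 0 + R) / (6 * R) + (x 1 + R) / (6 * R) +
      (x 2 + R) / (6 * R)), (x 0 + R) / (6 * R), (x 1 + R) / (6 * R), (x 2 + R) / (6 * R)] :=
    ⟨_, rfl⟩
  have hsum : ∑ i, w i = 1 := by
    rw [hw, Fin.sum_univ_four]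
    simp
    ring
  have hpos : ∀ i ∈ (Finset.univ : Finset (Fin 4)), 0 ≤ w i := by
    intro i _
    rw [hw]
    fin_cases i
    · change 0 ≤ 1 - ((x 0 + R) / (6 * R) + (x 1 + R) / (6 * R) + (x 2 + R) / (6 * R))
      rw [← add_div, ← add_div, sub_nonneg, div_le_one (by positivity)]
      linarith
    · change 0 ≤ (x 0 + R) / (6 * R)
      exact div_nonneg (by linarith) (by positivity)
    · change 0 ≤ (x 1 + R) / (6 * R)
      exact div_nonneg (by linarith) (by positivity)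
    · change 0 ≤ (x 2 + R) / (6 * R)
      exact div_nonneg (by linarith) (by positivity)
  have hmem := (convex_convexHull ℝ (Set.range (![![-R, -R, -R], ![5 * R, -R, -R],
    ![-R, 5 * R, -R], ![-R, -R, 5 * R]] : Fin 4 → R3))).sum_mem hpos hsum
    (fun i _ => subset_convexHull ℝ _ (Set.mem_range_self i))
  have hx' : ∑ i, w i • (![![-R, -R, -R], ![5 * R, -R, -R],
    ![-R, 5 * R, -R], ![-R, -R, 5 * R]] : Fin 4 → R3) i = x := by
    rw [hw, Fin.sum_univ_four]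
    funext j
    fin_cases j <;> simp <;> field_simp <;> ring
  rw [hx'] at hmem
  exact hmem

end KnotA
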