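import Mathlib

/-!
Part A of MP_188a32_co: definitions.
-/

namespace KnotA

abbrev R3 := Fin 3 → ℝ
abbrev R6 := Fin 6 → ℝ

/-- total weight of the indices whose point lies in `S` -/
noncomputable def mass {ι V : Type} (I : Finset ι) (p : ι → V) (w : ι → ℝ) (S : Set V) : ℝ := by
  classical exact ∑ i ∈ I.filter (fun i => p i ∈ S), w i

/-- number of points of `X` in `S` -/
noncomputable def cnt (X : Finset R3) (S : Set R3) : ℕ := by
  classical exact (X.filter (fun x => x ∈ S)).card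

/-- every plane contains at most four points of `X` -/
def PlaneFour (X : Finset R3) : Prop :=
  ∀ (g : R3 →ₗ[ℝ] ℝ) (e : ℝ), g ≠ 0 → cnt X {x | g x = e} ≤ 4

/-- the region of `j` cut out by the affine functions `g J - c J` -/
def Reg {d : ℕ} (g : Finset (Fin (d + 1)) → ((Fin d → ℝ) →ₗ[ℝ] ℝ)) (c : Finset (Fin (d + 1)) → ℝ)
    (j : Fin (d + 1)) : Set (Fin d → ℝ) :=
  {x | ∀ J : Finset (Fin (d + 1)), (j ∈ J → c J < g J x) ∧ (j ∉ J → g J x < c J)}

/-- the simplex with vertices `v` -/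
def hull (v : Fin 4 → R3) : Set R3 := convexHull ℝ (Set.range v)

/-- `h - e` has a constant strict sign on `T` -/
def StrictSign (h : R3 →ₗ[ℝ] ℝ) (e : ℝ) (T : Set R3) : Prop :=
  (∀ x ∈ T, e < h x) ∨ (∀ x ∈ T, h x < e)

/-- a family of `K` disjoint simplices in `hull v`, every plane fails to have a constant strict
sign on at most `B` of them -/
structure IsFam {K : ℕ} (B : ℕ) (v : Fin 4 → R3) (D : Fin K → Fin 4 → R3) : Prop where
  sub : ∀ j, hull (D j) ⊆ hull v
  disj : ∀ i j, i ≠ j → Disjoint (hull (D i)) (hull (D j))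
  sign : ∀ (h : R3 →ₗ[ℝ] ℝ) (e : ℝ), h ≠ 0 →
    {j : Fin K | ¬ StrictSign h e (hull (D j))}.ncard ≤ B

/-- affine real functions -/
def IsAff (φ : R3 → ℝ) : Prop := ∃ (g : R3 →ₗ[ℝ] ℝ) (c : ℝ), ∀ x, φ x = g x + c

/-- Plücker type coordinates -/
def Pl (x y : R3) : R6 :=
  ![y 0 - x 0, y 1 - x 1, y 2 - x 2,
    x 1 * y 2 - x 2 * y 1, x 2 * y 0 - x 0 * y 2, x 0 * y 1 - x 1 * y 0]

/-- averaged sum of `φ` over the inner nodes below `u`, depth `D`:
`∑_{l < D} K^{-l} ∑_{|w| = l} φ (u ++ w)` -/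
noncomputable def tot {K : ℕ} : ℕ → (List (Fin K) → ℝ) → List (Fin K) → ℝ
  | 0, _, _ => 0
  | D + 1, φ, u => φ u + (1 / (K : ℝ)) * ∑ i : Fin K, tot D φ (u ++ [i])

/-- leaves `a` before `b`: they branch at a node `w` with letters `i`, `j`, `(i,j) ∈ G w` -/
def Branch {K : ℕ} (G : List (Fin K) → Set (Fin K × Fin K)) (a b : List (Fin K)) : Prop :=
  ∃ (w : List (Fin K)) (i j : Fin K) (a' b' : List (Fin K)),
    a = w ++ i :: a' ∧ b = w ++ j :: b' ∧ (i, j) ∈ G w

/-- orientation determinant -/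
noncomputable def chi (a a' b b' : R3) : ℝ := Matrix.det (Matrix.of ![a' - a, b - a, b' - a])

end KnotA
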